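import Pool.Agent.W921.VP.DefsC

/-! VP-SIZ: sizes of the classes of twins are determined by sentences of `L_1(T)` -/

set_option autoImplicit false

namespace Pool.Agent.W803.VPSiz

open FirstOrder Set Pool.Agent.W921.VP
open FirstOrder.Language (Theory BoundedFormula)

variable {L : FirstOrder.Language.{0, 0}}

/-- definable by a formula of `L_1(T)` -/
def Dfn (T : L.Theory) (n : ℕ) (P : L.Structure ℕ → (Fin n → ℕ) → Prop) : Prop :=
  ∃ φ : Fm T n, ∀ S a, φ.Sat S a ↔ P S a

variable {T : L.Theory} {n : ℕ}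

theorem Dfn.congr {P Q : L.Structure ℕ → (Fin n → ℕ) → Prop} (h : Dfn T n P)
    (hPQ : ∀ S a, P S a ↔ Q S a) : Dfn T n Q := by
  obtain ⟨φ, hφ⟩ := h
  exact ⟨φ, fun S a => (hφ S a).trans (hPQ S a)⟩

theorem Dfn.not {P : L.Structure ℕ → (Fin n → ℕ) → Prop} (h : Dfn T n P) :
    Dfn T n (fun S a => ¬ P S a) := by
  obtain ⟨φ, hφ⟩ := h
  exact ⟨.not φ, fun S a => by simp only [Fm.Sat, hφ]⟩

theorem Dfn.and {P Q : L.Structure ℕ → (Fin n → ℕ) → Prop} (h : Dfn T n P) (h' : Dfn T n Q) :
    Dfn T n (fun S a => P S a ∧ Q S a) := by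
  obtain ⟨φ, hφ⟩ := h
  obtain ⟨ψ, hψ⟩ := h'
  exact ⟨.and φ ψ, fun S a => by simp only [Fm.Sat, hφ, hψ]⟩

theorem Dfn.const (c : Prop) : Dfn T n (fun _ _ => c) := by
  by_cases hc : c
  · refine ⟨.fo (BoundedFormula.falsum.imp BoundedFormula.falsum), fun S a => ?_⟩
    simp [Fm.Sat, BoundedFormula.Realize, hc]
  · refine ⟨.fo BoundedFormula.falsum, fun S a => ?_⟩
    simp [Fm.Sat, BoundedFormula.Realize, hc]

theorem Dfn.eq (i j : Fin n) : Dfn T n (fun _ a => a i = a j) := by
  refine ⟨.fo (eqF n i j), fun S a => ?_⟩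
  simp [Fm.Sat, eqF, BoundedFormula.Realize]

theorem Dfn.type {k : ℕ} (p : Set (L.BoundedFormula Empty k)) (hp : IsTp T p)
    (v : Fin k → Fin n) :
    Dfn T n (fun S a => ∀ φ ∈ p, @BoundedFormula.Realize L ℕ S Empty k φ Empty.elim
      (fun i => a (v i))) :=
  ⟨.tp p hp v, fun S a => by simp only [Fm.Sat]⟩

theorem Dfn.all {P : L.Structure ℕ → (Fin (n + 1) → ℕ) → Prop} (h : Dfn T (n + 1) P) :
    Dfn T n (fun S a => ∀ x, P S (Fin.snoc a x)) := by
  obtain ⟨φ, hφ⟩ := h
  exact ⟨.all φ, fun S a => by simp only [Fm.Sat, hφ]⟩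

theorem Dfn.ex {P : L.Structure ℕ → (Fin (n + 1) → ℕ) → Prop} (h : Dfn T (n + 1) P) :
    Dfn T n (fun S a => ∃ x, P S (Fin.snoc a x)) := by
  refine h.not.all.not.congr fun S a => ?_
  push Not
  rfl

theorem Dfn.fin {k : ℕ} {P : Fin k → L.Structure ℕ → (Fin n → ℕ) → Prop}
    (h : ∀ i, Dfn T n (P i)) : Dfn T n (fun S a => ∀ i, P i S a) := by
  induction k with
  | zero => exact (Dfn.const True).congr fun S a => by simp
  | succ k ih =>
    have h1 := (h 0).and (ih (fun i => h i.succ))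
    exact h1.congr fun S a => by rw [Fin.forall_fin_succ]

theorem Dfn.iffConst {P : L.Structure ℕ → (Fin n → ℕ) → Prop} (h : Dfn T n P) (c : Prop) :
    Dfn T n (fun S a => P S a ↔ c) := by
  by_cases hc : c
  · exact h.congr fun S a => by simp [hc]
  · exact h.not.congr fun S a => by simp [hc]

theorem Dfn.exs (l : ℕ) {P : L.Structure ℕ → (Fin (n + l) → ℕ) → Prop} (h : Dfn T (n + l) P) :
    Dfn T n (fun S a => ∃ y : Fin l → ℕ, P S (Fin.append a y)) := by
  induction l with
  | zero =>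
    refine Dfn.congr (n := n) (P := P) h fun S a => ?_
    have h1 : ∀ y : Fin 0 → ℕ, (Fin.append a y : Fin (n + 0) → ℕ) = a := by
      intro y
      funext i
      exact Fin.append_left a y i
    constructor
    · intro h2
      exact ⟨Fin.elim0, by rw [h1]; exact h2⟩
    · rintro ⟨y, hy⟩
      rw [h1] at hy
      exact hy
  | succ l ih =>
    have h1 : Dfn T (n + l) (fun S b => ∃ z, P S (Fin.snoc b z)) := Dfn.ex (n := n + l) h
    refine (ih h1).congr fun S a => ?_
    constructor
    · rintro ⟨y, z, hz⟩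
      refine ⟨Fin.snoc y z, ?_⟩
      rw [Fin.append_snoc]
      exact hz
    · rintro ⟨y, hy⟩
      refine ⟨Fin.init y, y (Fin.last l), ?_⟩
      rw [← Fin.append_snoc, Fin.snoc_init_self]
      exact hy

theorem Dfn.exAll {n : ℕ} {P : L.Structure ℕ → (Fin n → ℕ) → Prop} (h : Dfn T n P) :
    Dfn T 0 (fun S _ => ∃ x : Fin n → ℕ, P S x) := by
  induction n with
  | zero =>
    refine h.congr fun S a => ?_
    constructor
    · intro h1
      exact ⟨a, h1⟩
    · rintro ⟨x, hx⟩
      rw [Subsingleton.elim a x]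
      exact hx
  | succ n ih =>
    refine (ih (Dfn.ex h)).congr fun S a => ?_
    constructor
    · rintro ⟨x, z, hz⟩
      exact ⟨Fin.snoc x z, hz⟩
    · rintro ⟨x, hx⟩
      refine ⟨Fin.init x, x (Fin.last n), ?_⟩
      rw [Fin.snoc_init_self]
      exact hx

theorem le_encard_iff (s : Set ℕ) (l : ℕ) :
    (l : ℕ∞) ≤ s.encard ↔ ∃ y : Fin l → ℕ, (∀ i j, i ≠ j → y i ≠ y j) ∧ ∀ j, y j ∈ s := by
  constructor
  · intro h
    obtain ⟨t, hts, ht⟩ := Set.exists_subset_encard_eq h
    have hfin : t.Finite := Set.finite_of_encard_eq_coe ht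
    have hc : hfin.toFinset.card = l := by
      have h1 := hfin.encard_eq_coe_toFinset_card
      rw [ht] at h1
      exact_mod_cast h1.symm
    let e := hfin.toFinset.equivFinOfCardEq hc
    refine ⟨fun i => (e.symm i : ℕ), ?_, ?_⟩
    · intro i j hij h
      exact hij (e.symm.injective (Subtype.ext h))
    · intro j
      exact hts (hfin.mem_toFinset.1 (e.symm j).2)
  · rintro ⟨y, hy, hys⟩
    have hinj : Function.Injective y := by
      intro i j h
      by_contra hne
      exact hy i j hne h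
    have h1 : Set.encard (Set.range y) = l := by
      rw [← Set.image_univ, hinj.encard_image, Set.encard_univ]
      simp
    rw [← h1]
    exact Set.encard_le_encard (by rintro _ ⟨j, rfl⟩; exact hys j)

theorem Dfn.count {r : Set (L.BoundedFormula Empty (n + 1))} (hr : IsTp T r) (l : ℕ) :
    Dfn T n (fun S a => (l : ℕ∞) ≤ Set.encard {y | ∀ φ ∈ r,
      @BoundedFormula.Realize L ℕ S Empty (n + 1) φ Empty.elim (Fin.snoc a y)}) := by
  have h1 : Dfn T (n + l) (fun S b =>
      (∀ i j : Fin l, i ≠ j → b (Fin.natAdd n i) ≠ b (Fin.natAdd n j)) ∧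
      ∀ j : Fin l, ∀ φ ∈ r, @BoundedFormula.Realize L ℕ S Empty (n + 1) φ Empty.elim
        (fun i => b ((Fin.snoc (Fin.castAdd l) (Fin.natAdd n j) : Fin (n + 1) → Fin (n + l)) i))) := by
    refine Dfn.and (Dfn.fin fun i => Dfn.fin fun j => ?_) (Dfn.fin fun j => Dfn.type r hr _)
    by_cases hij : i = j
    · exact (Dfn.const True).congr fun S a => by simp [hij]
    · exact (Dfn.eq (Fin.natAdd n i) (Fin.natAdd n j)).not.congr fun S a => by simp [hij]
  refine (Dfn.exs l h1).congr fun S a => ?_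
  rw [le_encard_iff]
  refine exists_congr fun y => and_congr ?_ ?_
  · simp only [Fin.append_right]
  · refine forall_congr' fun j => ?_
    have h2 : (fun i => (Fin.append a y) ((Fin.snoc (Fin.castAdd l) (Fin.natAdd n j) :
        Fin (n + 1) → Fin (n + l)) i)) = (Fin.snoc a (y j) : Fin (n + 1) → ℕ) := by
      funext i
      refine Fin.lastCases ?_ (fun i => ?_) i
      · simp
      · simp
    rw [h2]
    rfl

/-- the complete type -/
def ctp (S : L.Structure ℕ) {n : ℕ} (a : Fin n → ℕ) : Set (L.BoundedFormula Empty n) :=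
  {φ | @BoundedFormula.Realize L ℕ S Empty n φ Empty.elim a}

theorem sameTp_of_ctp {S S' : L.Structure ℕ} {n : ℕ} {a a' : Fin n → ℕ}
    (h : ∀ φ ∈ ctp S a, @BoundedFormula.Realize L ℕ S' Empty n φ Empty.elim a') :
    SameTp S S' a a' := by
  intro φ
  constructor
  · exact fun h1 => h φ h1
  · intro h1
    by_contra h2
    have h3 : φ.not ∈ ctp S a :=
      (@BoundedFormula.realize_not L ℕ S Empty n φ Empty.elim a).2 h2
    exact (@BoundedFormula.realize_not L ℕ S' Empty n φ Empty.elim a').1 (h φ.not h3) h1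

theorem ctp_of_sameTp {S S' : L.Structure ℕ} {n : ℕ} {a a' : Fin n → ℕ} (h : SameTp S S' a a') :
    ∀ φ ∈ ctp S a, @BoundedFormula.Realize L ℕ S' Empty n φ Empty.elim a' :=
  fun φ hφ => (h φ).1 hφ

theorem sameTp_eq {S S' : L.Structure ℕ} {n : ℕ} {a a' : Fin n → ℕ} (h : SameTp S S' a a')
    (i j : Fin n) : a i = a j ↔ a' i = a' j := by
  have := h (eqF n i j)
  simpa [eqF, BoundedFormula.Realize] using this

theorem task (hs : S_SW) (_ht : S_TWD) (hn : S_NI) (hq : S_QU) : S_SIZ := by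
  classical
  intro L hL hrel T S S' hS hS' hF hF' hEq n a _hni hne _hcov K
  have hne' : ∀ S0 : L.Structure ℕ, ∀ x : Fin n → ℕ, SameTp S S0 a x → ∀ i j, i ≠ j →
      ¬ TwA S0 (x i) (x j) := by
    intro S0 x hx i j hij h
    exact hne i j hij (((hn L ℕ ℕ S S0 n a x hx).2 i j).2 h)
  have hrefl : ∀ (S0 : L.Structure ℕ) (x : ℕ), TwA S0 x x := fun S0 x R =>
    (hs L ℕ S0 R.1 R.2).1.refl x
  -- the sizes are definable
  have key : ∀ (i : Fin n) (l : ℕ), ∃ P : L.Structure ℕ → (Fin n → ℕ) → Prop, Dfn T n P ∧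
      ∀ S0 : L.Structure ℕ, (S0 = S ∨ S0 = S') → ∀ x : Fin n → ℕ, SameTp S S0 a x →
        (P S0 x ↔ (l : ℕ∞) ≤ Set.encard {y | TwA S0 y (x i)}) := by
    intro i l
    by_cases hA : ∃ S1 : L.Structure ℕ, (S1 = S ∨ S1 = S') ∧ ∃ x1 : Fin n → ℕ,
        SameTp S S1 a x1 ∧ ∃ y1, TwA S1 y1 (x1 i) ∧ ∀ j, y1 ≠ x1 j
    · obtain ⟨S1, hS1, x1, hx1, y1, hy1, hy1'⟩ := hA
      have hM1 : Mods S1 T := by
        rcases hS1 with rfl | rfl
        · exact hS
        · exact hS'
      have hF1 : ∀ R, FinInd S1 R := by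
        rcases hS1 with rfl | rfl
        · exact hF
        · exact hF'
      have hr : IsTp T (ctp S1 (Fin.snoc x1 y1 : Fin (n + 1) → ℕ)) := ⟨S1, _, hM1, rfl⟩
      rcases l with _ | l
      · exact ⟨_, Dfn.const True, fun S0 _ x _ => by simp⟩
      · refine ⟨_, Dfn.count hr l, ?_⟩
        intro S0 hS0 x hx
        have hF0 : ∀ R, FinInd S0 R := by
          rcases hS0 with rfl | rfl
          · exact hF
          · exact hF'
        have hset : {y | ∀ φ ∈ ctp S1 (Fin.snoc x1 y1 : Fin (n + 1) → ℕ),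
            @BoundedFormula.Realize L ℕ S0 Empty (n + 1) φ Empty.elim (Fin.snoc x y)} =
            {y | TwA S0 y (x i) ∧ y ≠ x i} := by
          ext y
          constructor
          · intro h
            have h1 : SameTp S1 S0 (Fin.snoc x1 y1 : Fin (n + 1) → ℕ)
              (Fin.snoc x y : Fin (n + 1) → ℕ) := sameTp_of_ctp h
            constructor
            · have h2 := (hn L ℕ ℕ S1 S0 (n + 1) _ _ h1).2 (Fin.last n) (Fin.castSucc i)
              simp only [Fin.snoc_last, Fin.snoc_castSucc] at h2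
              exact h2.1 hy1
            · intro h2
              have h3 := sameTp_eq h1 (Fin.last n) (Fin.castSucc i)
              simp only [Fin.snoc_last, Fin.snoc_castSucc] at h3
              exact hy1' i (h3.2 h2)
          · rintro ⟨h1, h2⟩
            have h3 : ∀ j, y ≠ x j := by
              intro j hj
              by_cases hji : j = i
              · exact h2 (hji ▸ hj)
              · exact hne' S0 x hx j i hji (hj ▸ h1)
            have h4 : SameTp S1 S0 x1 x := fun φ => (hx1 φ).symm.trans (hx φ)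
            exact ctp_of_sameTp (hq L hrel S1 S0 n x1 x hF1 hF0 h4 i y1 y hy1 h1 hy1' h3)
        show (l : ℕ∞) ≤ Set.encard {y | ∀ φ ∈ ctp S1 (Fin.snoc x1 y1 : Fin (n + 1) → ℕ),
            @BoundedFormula.Realize L ℕ S0 Empty (n + 1) φ Empty.elim (Fin.snoc x y)} ↔ _
        rw [hset]
        have h5 : {y | TwA S0 y (x i)} = insert (x i) {y | TwA S0 y (x i) ∧ y ≠ x i} := by
          ext y
          simp only [Set.mem_ofPred_eq, Set.mem_insert_iff]
          constructor
          · intro h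
            by_cases hy : y = x i
            · exact Or.inl hy
            · exact Or.inr ⟨h, hy⟩
          · rintro (rfl | h)
            · exact hrefl S0 _
            · exact h.1
        rw [h5, Set.encard_insert_of_notMem (by simp)]
        push_cast
        exact (ENat.add_le_add_iff_right (ENat.natCast_ne_top 1)).symm
    · refine ⟨_, Dfn.const (l ≤ 1), ?_⟩
      intro S0 hS0 x hx
      have h1 : {y | TwA S0 y (x i)} = {x i} := by
        ext y
        simp only [Set.mem_ofPred_eq, Set.mem_singleton_iff]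
        constructor
        · intro h
          by_contra hy
          refine hA ⟨S0, hS0, x, hx, y, h, ?_⟩
          intro j hj
          by_cases hji : j = i
          · exact hy (hji ▸ hj)
          · exact hne' S0 x hx j i hji (hj ▸ h)
        · rintro rfl
          exact hrefl S0 _
      rw [h1, Set.encard_singleton]
      norm_cast
  choose P hP hP' using key
  have hsent : Dfn T 0 (fun S0 _ => ∃ x : Fin n → ℕ,
      (∀ φ ∈ ctp S a, @BoundedFormula.Realize L ℕ S0 Empty n φ Empty.elim x) ∧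
      ∀ (i : Fin n) (l : Fin (K + 1)), (P i l S0 x ↔ P i l S a)) :=
    Dfn.exAll ((Dfn.type (ctp S a) ⟨S, a, hS, rfl⟩ id).and
      (Dfn.fin fun i => Dfn.fin fun l => (hP i l).iffConst _))
  obtain ⟨σ, hσ⟩ := hsent
  have h1 : σ.Sat S Fin.elim0 := (hσ S _).2 ⟨a, fun φ hφ => hφ, fun i l => Iff.rfl⟩
  have h2 := (hσ S' _).1 ((hEq σ).1 h1)
  obtain ⟨a', ha', hP2⟩ := h2
  have h3 : SameTp S S' a a' := sameTp_of_ctp ha'
  refine ⟨a', h3, ?_⟩
  intro i l hl
  have h4 := hP2 i ⟨l, by omega⟩
  rw [← hP' i l S (Or.inl rfl) a (fun φ => Iff.rfl), ← hP' i l S' (Or.inr rfl) a' h3]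
  exact h4.symm

end Pool.Agent.W803.VPSiz
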